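import Pool.Agent.MP_d99b12_co.H25.Spec3
import Pool.Agent.MP_d99b12_co.H25.ChainB

/-! # Auxiliary petals in many closed sets at the same time -/

namespace Pool.Agent.MP_d99b12_co.H30b

open Matrix H25

theorem allw {F : Type} [Field F] [Fintype F] {m : ℕ} (hE : EXT F m) (h1 : AUXSAME F m)
    (h2 : AUXCONGR F m) : ALLW F m := by
  classical
  intro K P _ _ d c E _ col N n S kk pp a b Ω J hU hr hn hm hs hf hc hch hab hΩ hsh hd
  obtain ⟨k, hk⟩ : ∃ k, d.colK k = c := by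
    by_contra h
    push Not at h
    have : Fintype.card {k // ¬d.colK k = c} = Fintype.card K :=
      Fintype.card_congr (Equiv.subtypeUnivEquiv h)
    omega
  obtain ⟨p, hp⟩ : ∃ p, d.V k p ≠ 0 := by
    by_contra h
    push Not at h
    simpa using congrFun (hr (Pi.single k 1) fun q => by simp [Datum.y, h]) k
  suffices ∃ (col' : E → Bool) (S' : Fin (N + 1) → Matrix E E F), Fam col' S' ∧
      (∀ i, Conn m (S' i)) ∧ (∀ k, col' (kk k) = col (kk k)) ∧
      (∀ t, t ∉ J → ∀ u ∈ Ω t, col' u = col u ∧ ∀ i v, S' i u v = S i u v) ∧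
      (∀ t t', t ≠ t' → ∀ u ∈ Ω t, ∀ w ∈ Ω t', ∀ i, S' i u w = 0) ∧
      (∀ t ∈ J, ∃ W ⊆ Ω t, W.ncard ≤ 4 * (3 * Fintype.card K + 2) ∧
        ∀ i, Aux m c col' (S' i) kk W) ∧ ∀ t, Shut (S' (Fin.last N)) kk (Ω t) by
    obtain ⟨col', S', a1, a2, a3, a4, a5, a6, -⟩ := this
    exact ⟨col', S', a1, a2, a3, a4, a5, a6⟩
  induction J using Finset.induction_on with
  | empty => exact ⟨col, S, hf, hc, fun _ => rfl, fun _ _ _ _ => ⟨rfl, fun _ _ => rfl⟩,
      fun t t' h u hu w hw i => (hf.zero_iff i (Fin.last N) u w).2 ((hd t t' h).2 u hu w hw),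
      by simp, hsh⟩
  | insert t0 J ht0 ih =>
    obtain ⟨col', S', a1, a2, a3, a4, a5, a6, a7⟩ := ih
    have row : ∀ j, (∀ q, pp j q ∈ Ω t0) → ∀ q v, S' (Fin.last N) (pp j q) v =
        S (Fin.last N) (pp j q) v := fun j h q v => (a4 t0 ht0 _ (h q)).2 _ v
    have yy : ∀ j, (∀ q, pp j q ∈ Ω t0) → ∀ q, yv (S' (Fin.last N)) kk (pp j q) = d.y q :=
      fun j h q => funext fun r => by
        change S' _ _ _ = _
        rw [a1.skew, row j h, hch.pp_kk, neg_neg]; rfl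
    have con : ∀ j, (∀ q, pp j q ∈ Ω t0) → ConnOn (S' (Fin.last N)) (Set.range (pp j)) := by
      intro j h X hX h0
      have e : ∀ q q', S' (Fin.last N) (pp j q) (pp j q') = d.B q q' := fun q q' => by
        rw [row j h, hch.pp_left (by simp)]
        simp [Datum.B, hU]
      have z : ∀ q, pp j q ∈ X → ∀ q', pp j q' ∉ X → S' (Fin.last N) (pp j q) (pp j q') = 0 :=
        fun q hq q' hq' => h0 _ hq _ ⟨⟨q', rfl⟩, hq'⟩
      rcases hn (pp j ⁻¹' X) (fun q hq q' hq' => ⟨e q q' ▸ z q hq q' hq', by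
        rw [← e, a1.skew, z q hq q' hq', neg_zero]⟩) with h' | h'
      · refine Or.inl (Set.eq_empty_of_forall_notMem fun u hu => ?_)
        obtain ⟨q, rfl⟩ := hX hu
        exact (h' ▸ hu : q ∈ (∅ : Set P))
      · refine Or.inr (hX.antisymm ?_)
        rintro _ ⟨q, rfl⟩
        exact (h' ▸ Set.mem_univ q : q ∈ pp j ⁻¹' X)
    have full : ∀ j, (∀ q, pp j q ∈ Ω t0) → Full (S' (Fin.last N)) kk (Set.range (pp j)) :=
      fun j h x hx => hr x fun q => yy j h q ▸ hx _ ⟨q, rfl⟩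
    have cp : ∀ j, (∀ q, pp j q ∈ Ω t0) → ¬col' (pp j p) = c := fun j h e => hp (by
      rw [← hch.kk_pp (Fin.last N) k j p]
      exact hf.bip _ _ _ (by rw [hch.colK, hk, ← (a4 t0 ht0 _ (h p)).1, e]))
    have ha := fun q => (hΩ t0 q).1
    have hb := fun q => (hΩ t0 q).2
    obtain ⟨b', W, g1, g2, g3, g4⟩ := hE E _ K (col', S') (Fin.last N) kk (Ω t0) _ _ c
      (pp (a t0) p) (pp (b t0) p) a1 (a2 _) hch.kk_inj hm (a7 t0) (Set.range_subset_iff.2 ha)
      (Set.range_subset_iff.2 hb) (con _ ha) (con _ hb) (full _ ha) (full _ hb) ⟨p, rfl⟩ ⟨p, rfl⟩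
      (fun e => hab t0 (hch.pp_inj e).1) ((yy _ ha p).trans (yy _ hb p).symm) (cp _ ha) (cp _ hb)
      (by simpa only [a3, hch.colK] using hs)
    have f' := g1.fam a1
    have out : ∀ t, t ≠ t0 → ∀ u ∈ Ω t, b'.1 u = col' u ∧ ∀ i v, b'.2 i u v = S' i u v := by
      intro t h u hu
      have : u ∉ Ω t0 := Set.disjoint_left.1 (hd t t0 h).1 hu
      exact ⟨g1.col this, g1.row a1 this (i0 := Fin.last N) fun z hz => a5 t t0 h u hu z hz _⟩
    have ck : ∀ k, b'.1 (kk k) = col' (kk k) := fun k => g1.col ((a7 t0).notK k)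
    refine ⟨b'.1, b'.2, f', fun i => g1.conn (a2 i), fun k => (ck k).trans (a3 k),
      fun t ht u hu => ?_, fun t t' h u hu w hw i => ?_, fun t ht => ?_, fun t => ?_⟩
    · rw [Finset.mem_insert, not_or] at ht
      exact ⟨(out t ht.1 u hu).1.trans (a4 t ht.2 u hu).1, fun i v =>
        ((out t ht.1 u hu).2 i v).trans ((a4 t ht.2 u hu).2 i v)⟩
    · by_cases e : t = t0
      · rw [f'.skew, (out t' (fun k => h (e.trans k.symm)) w hw).2, a5 t' t h.symm w hw u hu,
          neg_zero]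
      · rw [(out t e u hu).2, a5 t t' h u hu w hw]
    · by_cases e : t = t0
      · exact ⟨W, e ▸ g2, g3, fun i => h1 E K c _ _ _ kk W (f'.same _ i) g4⟩
      · obtain ⟨W', w1, w2, w3⟩ := a6 t ((Finset.mem_insert.1 ht).resolve_left e)
        exact ⟨W', w1, w2, fun i => h2 E K c col' _ _ _ kk W' (a1.skew i) (f'.skew i)
          (fun u hu => (out t e u (w1 hu)).2 i) (fun u hu => (out t e u (w1 hu)).1) ck (w3 i)⟩
    · by_cases e : t = t0
      · exact e ▸ g1.shut le_rfl (a7 t0)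
      · have cc : ∀ u ∈ Ω t, ∀ v, b'.2 (Fin.last N) v u = S' (Fin.last N) v u := fun u hu v => by
          rw [f'.skew, (out t e u hu).2, ← a1.skew]
        refine ⟨(a7 t).notK, fun w hw => ((a7 t).span w hw).imp fun x hx u hu => ?_⟩
        rw [cc u hu, hx u hu]
        exact congrArg _ (funext fun r => (cc u hu _).symm)

end Pool.Agent.MP_d99b12_co.H30b
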