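import Pool.Agent.MP_d99b12_co.H25.Final

/-! # A crude bound for the level of a connected commutative datum with a visible pair -/

namespace Pool.Agent.MP_d99b12_co.H30b

open Matrix Module H25 H25.ANEM H25.KILL

section Window

variable {F : Type} [Field F] {I J : Type} [Fintype I] [Fintype J]

/-- A window that is cut out by the functionals `g` is not killed by them. -/
lemma false_of_pin {A : Anem F I J} (hA : A.Ax) {T : Type} [Fintype T] [DecidableEq T]
    {g v : T → I → F} (hd : ∀ s t, g s ⬝ᵥ v t = if s = t then 1 else 0) {Y : Set (I → F)}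
    {X : Set (J → F)} (hY : Y ⊆ A.𝒴) (hX : X ⊆ A.𝒳) (hk : ∀ s, ∀ y ∈ Y, g s ⬝ᵥ y = 0)
    (hpin : ∀ φ : I → F, (∀ y ∈ Y, φ ⬝ᵥ y = 0) → φ ∈ Submodule.span F (Set.range g))
    (hr : finrank F (KILL.perp X) ≤ Fintype.card T) {h : Matrix I J F} (hh : h ∈ A.H) {x : J → F}
    (h0 : x ≠ 0) (hx : ∀ ξ ∈ X, ξ ⬝ᵥ x = 0) (hg : ∀ s, g s ⬝ᵥ (A.D + h) *ᵥ x = 0) : False := by
  refine window hA hY hX ((Nat.add_le_add_right hr _).trans (rank_span hd hk)) hh ⟨x, h0, hx, ?_⟩
  by_contra hn
  obtain ⟨φ, h1, h2⟩ := exists_vec _ hn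
  have h3 := hpin φ fun y hy => h2 y (Submodule.subset_span hy)
  have h4 : (A.D + h) *ᵥ x ⬝ᵥ φ = 0 := dot_span (by
    rintro _ ⟨s, rfl⟩
    rw [dotProduct_comm, hg]) h3
  rw [dotProduct_comm, h1] at h4
  exact one_ne_zero h4

/-- `u i` and `u j` are linked modulo the vectors outside `S`. -/
def Lk (𝒴 : Set (I → F)) {T : Type} (u : T → I → F) (S : Set T) (i j : T) : Prop :=
  ∃ α β : F, α ≠ 0 ∧ β ≠ 0 ∧ ∃ v ∈ Submodule.span F (u '' Sᶜ), α • u i + β • u j + v ∈ 𝒴

/-- A linked sequence is short. -/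
lemma seq_false [Fintype F] {A : Anem F I J} (hA : A.Ax) (hJ : 1 ≤ Fintype.card J) {T : Type}
    [Fintype T] [DecidableEq T] {u : T → I → F} (hu : LinearIndependent F u)
    (hm : ∀ t, u t ∈ A.𝒴) (g : ℕ → T)
    (hinj : ∀ i ≤ Fintype.card F, ∀ j ≤ Fintype.card F, g i = g j → i = j)
    (hl : ∀ i < Fintype.card F, Lk A.𝒴 u (g '' {i | i ≤ Fintype.card F}) (g i) (g (i + 1))) :
    False := by
  classical
  set q := Fintype.card F with hq
  obtain ⟨f, Y, G⟩ := exists_frame hA.spanY hu hm
  obtain ⟨ξ, hξ, hξ0⟩ : ∃ ξ ∈ A.𝒳, ξ ≠ 0 := by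
    by_contra hn
    push Not at hn
    have h1 : Submodule.span F A.𝒳 = ⊥ := Submodule.span_eq_bot.2 hn
    have : Nonempty J := Fintype.card_pos_iff.1 hJ
    exact top_ne_bot (hA.spanX.symm.trans h1)
  obtain ⟨w, X, G'⟩ := exists_frame (T := Unit) hA.spanX (u := fun _ => ξ)
    (linearIndependent_unique_iff.2 hξ0) fun _ => hξ
  choose! α β hα hβ v hv hL using hl
  let a : ℕ → F := fun n => Nat.rec 1 (fun i x => -(x * α i / β i)) n
  have ha : ∀ i, a (i + 1) = -(a i * α i / β i) := fun _ => rfl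
  have ha0 : ∀ i ≤ q, a i ≠ 0 := by
    intro i
    induction i with
    | zero => exact fun _ => one_ne_zero
    | succ i ih =>
      intro hi
      rw [ha]
      exact neg_ne_zero.2 (div_ne_zero (mul_ne_zero (ih (by omega)) (hα i (by omega)))
        (hβ i (by omega)))
  set z := (A.D + 0) *ᵥ w () with hz
  obtain ⟨r1, r2, hlt, hr2, he⟩ : ∃ r1 r2, r1 < r2 ∧ r2 ≤ q ∧
      ∑ t ∈ Finset.Ico r1 r2, a t * (f (g t) ⬝ᵥ z) = 0 := by
    obtain ⟨i, j, hij, e⟩ := Fintype.exists_ne_map_eq_of_card_lt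
      (fun i : Fin (q + 1) => ∑ t ∈ Finset.range i.val, a t * (f (g t) ⬝ᵥ z)) (by simp [hq])
    rcases lt_or_gt_of_ne hij with h | h
    · exact ⟨i, j, h, by omega, by rw [Finset.sum_Ico_eq_sub _ (le_of_lt h), e, sub_self]⟩
    · exact ⟨j, i, h, by omega, by rw [Finset.sum_Ico_eq_sub _ (le_of_lt h), e, sub_self]⟩
  set S : Set T := g '' {t | r1 ≤ t ∧ t < r2} with hS
  set gf : I → F := ∑ t ∈ Finset.Ico r1 r2, a t • f (g t) with hgf
  have g1 : ∀ t, t ∉ S → gf ⬝ᵥ u t = 0 := by
    intro t ht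
    rw [hgf, sum_dotProduct]
    refine Finset.sum_eq_zero fun i hi => ?_
    rw [smul_dotProduct, G.dual, if_neg, smul_zero]
    exact fun e => ht ⟨i, by simpa using hi, e⟩
  have g2 : ∀ t, r1 ≤ t → t < r2 → gf ⬝ᵥ u (g t) = a t := by
    intro t h1 h2
    rw [hgf, sum_dotProduct, Finset.sum_eq_single t]
    · rw [smul_dotProduct, G.dual, if_pos rfl, smul_eq_mul, mul_one]
    · intro i hi hne
      rw [smul_dotProduct, G.dual, if_neg, smul_zero]
      have := Finset.mem_Ico.1 hi
      exact fun e => hne (hinj i (by omega) t (by omega) e)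
    · exact fun h => absurd (Finset.mem_Ico.2 ⟨h1, h2⟩) h
  have hsub : u '' (g '' {i | i ≤ q})ᶜ ⊆ u '' Sᶜ := Set.image_mono (Set.compl_subset_compl.2
    (Set.image_mono fun t ht => by have := ht.2; change t ≤ q; omega))
  have g3 : ∀ φ : I → F, (∀ t, t ∉ S → φ ⬝ᵥ u t = 0) → ∀ t < q, φ ⬝ᵥ v t = 0 := fun φ h t ht =>
    dot_span (by rintro _ hy; obtain ⟨i, hi, rfl⟩ := hsub hy; exact h i hi) (hv t ht)
  set Y0 := (Y ∪ u '' Sᶜ) ∪
    (fun t => α t • u (g t) + β t • u (g (t + 1)) + v t) '' {t | r1 ≤ t ∧ t + 1 < r2} with hY0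
  refine false_of_pin hA (T := Unit) (g := fun _ => gf) (v := fun _ => (a r1)⁻¹ • u (g r1))
    (fun _ _ => ?_) (Y := Y0) (X := X ∪ (fun _ : Unit => ξ) '' (↑({()} : Finset Unit))ᶜ)
    (Set.union_subset (G.subset _) ?_) (G'.subset _) ?_ ?_ (by simpa using G'.rank_perp {()})
    (zero_mem _) (x := w ()) (fun e => by simpa [e] using G'.dual () ())
    (G'.mem_perp (Finset.mem_singleton_self ())) fun _ => ?_
  · rw [dotProduct_smul, g2 r1 le_rfl hlt, smul_eq_mul, inv_mul_cancel₀ (ha0 r1 (by omega))]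
    simp
  · rintro _ ⟨t, ht, rfl⟩
    exact hL t (by have := ht.2; omega)
  · rintro _ y ((hy | ⟨t, ht, rfl⟩) | ⟨t, ht, rfl⟩)
    · simp [hgf, sum_dotProduct, G.kill _ y hy]
    · exact g1 t ht
    · have h1 := ht.1
      have h2 := ht.2
      have h3 := hβ t (by omega)
      simp only [dotProduct_add, dotProduct_smul, smul_eq_mul]
      rw [g2 t h1 (by omega), g2 (t + 1) (by omega) h2, g3 gf g1 t (by omega), ha]
      field_simp
      ring
  · intro φ hφ
    have p1 : ∀ t, t ∉ S → φ ⬝ᵥ u t = 0 := fun t ht => hφ _ (Or.inl (Or.inr ⟨t, ht, rfl⟩))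
    set σ := φ ⬝ᵥ u (g r1) / a r1 with hσ
    have p2 : ∀ t, r1 ≤ t → t < r2 → φ ⬝ᵥ u (g t) = σ * a t := by
      intro t h1
      induction t, h1 using Nat.le_induction with
      | base => exact fun _ => by rw [hσ, div_mul_cancel₀ _ (ha0 r1 (by omega))]
      | succ t h1 ih =>
        intro h2
        have e := hφ _ (Or.inr ⟨t, ⟨h1, h2⟩, rfl⟩)
        have h3 := hβ t (by omega)
        simp only [dotProduct_add, dotProduct_smul, smul_eq_mul] at e
        rw [ih (by omega), g3 φ p1 t (by omega)] at e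
        rw [ha]
        field_simp
        linear_combination e
    have p3 : ∀ t, (φ - σ • gf) ⬝ᵥ u t = 0 := by
      intro t
      rw [sub_dotProduct, smul_dotProduct, smul_eq_mul]
      by_cases ht : t ∈ S
      · obtain ⟨i, hi, rfl⟩ := ht
        rw [p2 i hi.1 hi.2, g2 i hi.1 hi.2, sub_self]
      · rw [p1 t ht, g1 t ht, mul_zero, sub_self]
    have p4 : φ - σ • gf = 0 := dotProduct_eq_zero _ fun x => by
      have e := dot_span (f := φ - σ • gf) (fun y hy => by
        rw [sub_dotProduct, hφ y (Or.inl (Or.inl hy))]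
        simp [hgf, sum_dotProduct, G.kill _ y hy]) (G.span x)
      rw [dotProduct_sub, dotProduct_sum] at e
      simpa [p3] using e
    rw [sub_eq_zero.1 p4]
    exact Submodule.smul_mem _ _ (Submodule.subset_span ⟨(), rfl⟩)
  · rw [← hz, hgf, sum_dotProduct, ← he]
    exact Finset.sum_congr rfl fun t _ => by rw [smul_dotProduct, smul_eq_mul]

end Window

section Tree

variable {F : Type} [Field F] [Fintype F] {K P : Type} [Fintype K] [Fintype P]
  {s : Sys F K} {c : Bool} {D0 : Matrix {k // s.colK k = c} {k // ¬s.colK k = c} F}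
  {col : P → Bool} {y : P → K → F} {B Bs : Matrix P P F} {ε : Matrix K K F}

omit [Fintype F] in
/-- Far-end exchanges: the columns of `Jc` are not touched at all. -/
lemma grow2 (hS : SREB F) (hδ : s.δ = 0) (Jc : Set P) (D1 : Submodule F (K → F))
    (hD : ∀ x : K → F, (∀ k, s.colK k = c → x k = 0) → x ∈ D1) (n : ℕ) :
    ∀ (col : P → Bool) (y : P → K → F) (B : Matrix P P F) (l : ℕ) (z : ℕ → P), l ≤ n →
      SDisp s col y B → (∀ x ∈ Jc, ¬col x = c ∧ y x ∈ D1) →
      Walk (fun u v => B u v ≠ 0) Jc {p | y p ∉ D1} l z →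
      ∃ (col' : P → Bool) (y' : P → K → F) (B' : Matrix P P F), SDisp s col' y' B' ∧
        (∀ x ∈ Jc, col' x = col x ∧ y' x = y x ∧ ∀ w, B' w x = B w x) ∧
        ∃ x ∈ Jc, ∃ w b, y' b ∉ D1 ∧ B' w x ≠ 0 ∧ B' w b ≠ 0 := by
  induction n with
  | zero =>
    intro col y B l z hl _ hJ hw
    obtain rfl : l = 0 := by omega
    exact (hw.stop (hJ _ hw.start).2).elim
  | succ n ih =>
    intro col y B l0 z0 hl0 h hJ hw0
    obtain ⟨l, z, hl, hw⟩ := hw0.exists_sWalk
    have hc : ¬col (z l) = c := fun e => hw.stop (hD _ (row_supp h e))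
    have ev : Even l := (walk_col h hw.toWalk l le_rfl).1 (by
      have := (hJ _ hw.start).1
      revert hc this
      cases col (z l) <;> cases col (z 0) <;> cases c <;> simp)
    obtain ⟨m, rfl⟩ := ev
    rcases m with _ | _ | m
    · exact (hw.stop (hJ _ hw.start).2).elim
    · refine ⟨col, y, B, h, fun _ _ => ⟨rfl, rfl, fun _ => rfl⟩, z 0, hw.start, z 1, z 2, hw.stop,
        ?_, hw.step 1 (by omega)⟩
      rw [skew h hδ]
      exact neg_ne_zero.2 (hw.step 0 (by omega))
    obtain ⟨k, hk⟩ : ∃ k, m + 1 + 1 + (m + 1 + 1) = k + 2 := ⟨2 * m + 2, by ring⟩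
    have k2 : 2 ≤ k := by omega
    rw [hk] at hw hl
    have n0 : B (z (k + 1)) (z (k + 2)) ≠ 0 := hw.step _ (by omega)
    have n0' : B (z (k + 2)) (z (k + 1)) ≠ 0 := by rw [skew h hδ]; exact neg_ne_zero.2 n0
    have h' := (hS K P s col y B _ _ h n0 n0').1
    have j1 : ∀ x ∈ Jc, x ≠ z (k + 1) := fun x hx e =>
      hw.notMem_start (i := k + 1) (by omega) (by omega) (e ▸ hx)
    have j2 : ∀ x ∈ Jc, x ≠ z (k + 2) := fun x hx e =>
      hw.notMem_start (i := k + 2) (by omega) (by omega) (e ▸ hx)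
    have keep : ∀ x ∈ Jc, colFlip col {z (k + 1), z (k + 2)} x = col x ∧
        reY y B (z (k + 1)) (z (k + 2)) x = y x ∧
        ∀ w, epiv B (z (k + 1)) (z (k + 2)) w x = B w x := by
      intro x hx
      have a1 := not_not.1 (hw.chord_start hx (j := k + 1) (by omega) (by omega))
      have a2 := not_not.1 (hw.chord_start hx (j := k + 2) (by omega) (by omega))
      have b1 : B (z (k + 1)) x = 0 := by rw [skew h hδ, a1, neg_zero]
      have b2 : B (z (k + 2)) x = 0 := by rw [skew h hδ, a2, neg_zero]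
      refine ⟨colFlip_of_notMem _ (by simp [j1 x hx, j2 x hx]), ?_, fun w => ?_⟩
      · rw [reY_other (j1 x hx) (j2 x hx), a1, a2]
        simp
      · by_cases e1 : w = z (k + 1)
        · rw [e1, epiv_xv B (j1 x hx) (j2 x hx), b1, b2]
          simp
        by_cases e2 : w = z (k + 2)
        · rw [e2, epiv_yv B (fun e => col_ne h n0 (by rw [e])) (j1 x hx) (j2 x hx), b1, b2]
          simp
        rw [epiv_uv B e1 e2 (j1 x hx) (j2 x hx), b1, b2]
        simp
    have i1 : ∀ i ≤ k, z i ≠ z (k + 1) := fun i hi e => by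
      have := hw.inj (by omega) (by omega) e
      omega
    have i2 : ∀ i ≤ k, z i ≠ z (k + 2) := fun i hi e => by
      have := hw.inj (by omega) (by omega) e
      omega
    have c2 : ∀ i ≤ k, B (z i) (z (k + 2)) = 0 := fun i hi =>
      not_not.1 (hw.chord (by omega) le_rfl)
    obtain ⟨col', y', B', a1, a2, a3⟩ := ih _ _ _ k z (by omega) h'
      (fun x hx => by rw [(keep x hx).1, (keep x hx).2.1]; exact hJ x hx)
      ⟨hw.start, by
        intro hm
        rw [reY_other (i1 k le_rfl) (i2 k le_rfl), c2 k le_rfl] at hm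
        have hk' : y (z k) ∈ D1 := not_not.1 (hw.notMem_stop (i := k) (by omega))
        simp only [zero_div, zero_smul, sub_zero] at hm
        have := D1.sub_mem hk' hm
        rw [sub_sub_cancel, D1.smul_mem_iff (div_ne_zero (hw.step k (by omega)) n0')] at this
        exact hw.stop this, fun i hi => by
        rw [epiv_uv B (i1 i (by omega)) (i2 i (by omega)) (i1 _ hi) (i2 _ hi), c2 i (by omega),
          skew h hδ (z (i + 1)) (z (k + 2)), c2 _ hi]
        simpa using hw.step i (by omega)⟩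
    exact ⟨col', y', B', a1, fun x hx => ⟨(a2 x hx).1.trans (keep x hx).1,
      (a2 x hx).2.1.trans (keep x hx).2.1, fun w => ((a2 x hx).2.2 w).trans ((keep x hx).2.2 w)⟩, a3⟩

omit [Fintype F] in
/-- Independent columns along a tree, with the joining rows, in one display. -/
lemma tree2 (hS : SREB F) (h : SDisp s col y B) (hδ : s.δ = 0) (p0 : P) (n : ℕ)
    (hn : n ≤ Fintype.card {k // s.colK k = c}) :
    ∃ (col' : P → Bool) (y' : P → K → F) (B' : Matrix P P F) (x w : ℕ → P) (par : ℕ → ℕ),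
      SDisp s col' y' B' ∧
      LinearIndependent F (fun i : Fin n => res (fun k => s.colK k = c) (y' (x i))) ∧
      (∀ i < n, ¬col' (x i) = c) ∧
      ∀ i < n, 0 < i → par i < i ∧ B' (w i) (x i) ≠ 0 ∧ B' (w i) (x (par i)) ≠ 0 := by
  classical
  induction n with
  | zero => exact ⟨col, y, B, fun _ => p0, fun _ => p0, 0, h, linearIndependent_empty_type,
      by simp, by simp⟩
  | succ n ih =>
    obtain ⟨col1, y1, B1, x, w, par, h1, li, xc, hp⟩ := ih (by omega)
    let D1 := (Submodule.span F (Set.range fun i : Fin n =>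
      res (fun k => s.colK k = c) (y1 (x i)))).comap (res (F := F) fun k => s.colK k = c)
    have hD : ∀ v : K → F, (∀ k, s.colK k = c → v k = 0) → v ∈ D1 := by
      intro v hv
      have : res (fun k => s.colK k = c) v = 0 := funext fun k => hv k k.2
      simp [D1, this]
    have hD' : D1 ≠ ⊤ := by
      intro e
      have : Submodule.span F (Set.range fun i : Fin n =>
          res (fun k => s.colK k = c) (y1 (x i))) = ⊤ :=
        Submodule.eq_top_iff'.2 fun v => by
          have : ext (fun k => s.colK k = c) v ∈ D1 := e ▸ Submodule.mem_top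
          simpa [D1] using this
      have k := finrank_range_le_card (R := F) fun i : Fin n =>
        res (fun k => s.colK k = c) (y1 (x i))
      rw [Set.finrank, this, finrank_top, Module.finrank_fintype_fun_eq_card, Fintype.card_fin] at k
      omega
    obtain ⟨b, hb⟩ := exists_out h1 hD'
    have ext1 : ∀ (col' : P → Bool) (y' : P → K → F) (B' : Matrix P P F) (b r : P) (j : ℕ),
        SDisp s col' y' B' →
        (∀ i < n, col' (x i) = col1 (x i) ∧ y' (x i) = y1 (x i) ∧ ∀ w, B' w (x i) = B1 w (x i)) →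
        y' b ∉ D1 → (0 < n → j < n ∧ B' r b ≠ 0 ∧ B' r (x j) ≠ 0) →
        ∃ (col' : P → Bool) (y' : P → K → F) (B' : Matrix P P F) (x w : ℕ → P) (par : ℕ → ℕ),
          SDisp s col' y' B' ∧
          LinearIndependent F (fun i : Fin (n + 1) => res (fun k => s.colK k = c) (y' (x i))) ∧
          (∀ i < n + 1, ¬col' (x i) = c) ∧
          ∀ i < n + 1, 0 < i → par i < i ∧ B' (w i) (x i) ≠ 0 ∧ B' (w i) (x (par i)) ≠ 0 := by
      intro col' y' B' b r j h' hk hb hj
      refine ⟨col', y', B', Function.update x n b, Function.update w n r,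
        Function.update par n j, h', ?_, fun i hi => ?_, fun i hi h0 => ?_⟩
      · have : (fun i : Fin (n + 1) => res (fun k => s.colK k = c)
            (y' (Function.update x n b i))) =
            Fin.snoc (fun i : Fin n => res (fun k => s.colK k = c) (y1 (x i)))
              (res (fun k => s.colK k = c) (y' b)) := by
          funext i
          refine Fin.lastCases ?_ (fun i => ?_) i
          · simp
          · simp [Function.update_of_ne i.2.ne, (hk i i.2).2.1]
        rw [this, linearIndependent_finSnoc]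
        exact ⟨li, hb⟩
      · rcases Nat.lt_succ_iff_lt_or_eq.1 hi with hi | rfl
        · rw [Function.update_of_ne hi.ne, (hk i hi).1]
          exact xc i hi
        · rw [Function.update_self]
          exact fun e => hb (hD _ (row_supp h' e))
      · rcases Nat.lt_succ_iff_lt_or_eq.1 hi with hi | rfl
        · have := hp i hi h0
          rw [Function.update_of_ne hi.ne, Function.update_of_ne hi.ne,
            Function.update_of_ne hi.ne, Function.update_of_ne (this.1.trans hi).ne,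
            (hk i hi).2.2, (hk _ (this.1.trans hi)).2.2]
          exact this
        · rw [Function.update_self, Function.update_self, Function.update_self,
            Function.update_of_ne (hj h0).1.ne]
          exact hj h0
    rcases Nat.eq_zero_or_pos n with rfl | hn0
    · exact ext1 col1 y1 B1 b b 0 h1 (by simp) hb (by simp)
    obtain ⟨l, z, hw⟩ := exists_sWalk h1 (A := x '' {i | i < n}) (A' := {p | y1 p ∉ D1})
      ⟨_, 0, hn0, rfl⟩ ⟨b, hb⟩ hδ
    obtain ⟨col', y', B', h', hk, _, ⟨i, hi, rfl⟩, r, b', hb', e1, e2⟩ := grow2 hS hδ _ D1 hD l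
      col1 y1 B1 l z le_rfl h1 (by
        rintro _ ⟨i, hi, rfl⟩
        exact ⟨xc i hi, Submodule.subset_span ⟨⟨i, hi⟩, rfl⟩⟩) hw.toWalk
    exact ext1 col' y' B' b' r i h' (fun j hj => hk _ ⟨j, hj, rfl⟩) hb' fun _ => ⟨hi, e2, e1⟩

/-- Two columns that hang on a third one are linked modulo the third one. -/
lemma sib (hS : SREB F) (h : SDisp s col y B) (hδ : s.δ = 0) {o a b r r' : P} (hao : a ≠ o)
    (hbo : b ≠ o) (h1 : B r a ≠ 0) (h2 : B r o ≠ 0) (h3 : B r' b ≠ 0) (h4 : B r' o ≠ 0) :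
    ∃ α β κ : F, α ≠ 0 ∧ β ≠ 0 ∧ α • res (fun k => s.colK k = c) (y a) +
      β • res (fun k => s.colK k = c) (y b) + κ • res (fun k => s.colK k = c) (y o) ∈
      (mk s c D0).𝒴 := by
  by_cases e1 : B r b = 0
  swap
  · refine ⟨1, -(B r a / B r b), 0, one_ne_zero, neg_ne_zero.2 (div_ne_zero h1 e1), ?_⟩
    simpa [sub_eq_add_neg] using diff_mem_Y (c := c) (D0 := D0) hS h hδ h1 e1
  by_cases e2 : B r' a = 0
  swap
  · refine ⟨1, -(B r' a / B r' b), 0, one_ne_zero, neg_ne_zero.2 (div_ne_zero e2 h3), ?_⟩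
    simpa [sub_eq_add_neg] using diff_mem_Y (c := c) (D0 := D0) hS h hδ e2 h3
  have h4' : B o r' ≠ 0 := by rw [skew h hδ]; exact neg_ne_zero.2 h4
  have h' := (hS K P s col y B r' o h h4 h4').1
  have c1 := col_ne h h1
  have c2 := col_ne h h2
  have c3 := col_ne h h3
  have c4 := col_ne h h4
  have rr : r ≠ r' := fun e => h3 (e ▸ e1)
  have ro : r ≠ o := fun e => c2 (by rw [e])
  have ar : a ≠ r' := fun e => by
    rw [← e] at c4
    revert c1 c2 c4
    cases col r <;> cases col a <;> cases col o <;> simp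
  have br : b ≠ r' := fun e => c3 (by rw [e])
  have z1 : B r r' = 0 := h.bip _ _ (by
    revert c2 c4
    cases col r <;> cases col r' <;> cases col o <;> simp)
  have z2 : B a o = 0 := h.bip _ _ (by
    revert c1 c2
    cases col r <;> cases col a <;> cases col o <;> simp)
  have z3 : B b o = 0 := h.bip _ _ (by
    revert c3 c4
    cases col r' <;> cases col b <;> cases col o <;> simp)
  have k1 : epiv B r' o r a = B r a := by
    rw [epiv_uv B rr ro ar hao, z1, e2]
    simp
  have k2 : epiv B r' o r b ≠ 0 := by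
    rw [epiv_uv B rr ro br hbo, z1, e1]
    simpa using ⟨⟨h2, h3⟩, h4⟩
  have := diff_mem_Y (c := c) (D0 := D0) hS h' hδ (k1 ▸ h1) k2
  rw [reY_other ar hao, reY_other br hbo, z2, z3, skew h hδ r' a, e2] at this
  refine ⟨1, -(epiv B r' o r a / epiv B r' o r b),
    epiv B r' o r a / epiv B r' o r b * (B b r' / B o r'), one_ne_zero,
    neg_ne_zero.2 (div_ne_zero (k1 ▸ h1) k2), ?_⟩
  convert this using 1
  simp only [zero_div, zero_smul, sub_zero, neg_zero, map_sub, map_smul]
  module

/-- The end game of a system with a visible pair. -/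
lemma ax_mk (h : Disp s col y B Bs ε) {a b : P} (hv : VisP y B Bs a b) (hδ : s.δ = 0) (c : Bool) :
    ∃ D0, (mk s c D0).Ax := by
  obtain ⟨D0, XK, YK, hc⟩ := core s c
  obtain ⟨a, b, ha, hv⟩ : ∃ a b, col a = c ∧ VisP y B Bs a b := by
    by_cases e : col a = c
    · exact ⟨a, b, e, hv⟩
    · refine ⟨b, a, ?_, vis_symm h hδ hv⟩
      have := col_ne h.toSDisp (vis_ne zp h hv.2.2)
      revert e this
      cases col a <;> cases col b <;> cases c <;> simp
  refine ⟨D0, top_le_iff.1 ?_, top_le_iff.1 ?_,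
    move sreb zp reb (c1 zp reb (c1pre zp reb)) hc h hδ ha hv,
    tree sreb h.toSDisp hδ, ANEM.star sreb zp reb (c1pre zp reb) hc h hδ ha hv⟩
  · rw [← span_res h.toSDisp]
    exact Submodule.span_mono (Set.range_subset_iff.2 (mem_Y h.toSDisp hδ))
  · rw [← span_res h.toSDisp]
    exact Submodule.span_mono (Set.range_subset_iff.2 (mem_X h.toSDisp hδ))

omit [Fintype F] in
lemma side_pos (h : Disp s col y B Bs ε) {a b : P} (hv : VisP y B Bs a b) (c : Bool) :
    1 ≤ Fintype.card {k // ¬s.colK k = c} := by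
  have ne : col a ≠ col b := fun e => hv.2.2 ((h.bips _ _ e).trans (h.bip _ _ e).symm)
  obtain ⟨p, hp, yp⟩ : ∃ p, col p = c ∧ y p ≠ 0 := by
    by_cases e : col a = c
    · exact ⟨a, e, hv.1⟩
    · refine ⟨b, ?_, hv.2.1⟩
      revert e ne
      cases col a <;> cases col b <;> cases c <;> simp
  obtain ⟨k, hk⟩ := Function.ne_iff.1 yp
  exact Fintype.card_pos_iff.2 ⟨⟨k, fun e => hk (row_supp h.toSDisp hp k e)⟩⟩

end Tree

lemma side_bound (F : Type) [Field F] [Fintype F] : ∃ T, ∀ (K P : Type) [Fintype K] [Fintype P]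
    (s : Sys F K) (col : P → Bool) (y : P → K → F) (B Bs : Matrix P P F) (ε : Matrix K K F)
    (a b : P) (c : Bool), Disp s col y B Bs ε → VisP y B Bs a b → s.δ = 0 →
    Fintype.card {k // s.colK k = c} < T := by
  classical
  obtain ⟨T, hT⟩ := tree_dich (Fintype.card F + 1) (Fintype.card F + 1)
  refine ⟨T, fun K P _ _ s col y B Bs ε a b c h hv hδ => ?_⟩
  by_contra hn
  obtain ⟨D0, hA⟩ := ax_mk h hv hδ c
  obtain ⟨col', y', B', x, w, par, h', li, -, hp⟩ := tree2 (c := c) sreb h.toSDisp hδ a T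
    (not_lt.1 hn)
  have hq : 1 < Fintype.card F := Fintype.one_lt_card
  have hm : ∀ i : Fin T, res (fun k => s.colK k = c) (y' (x i)) ∈ (mk s c D0).𝒴 :=
    fun i => mem_Y h' hδ _
  have xi : ∀ i j : Fin T, x i = x j → i = j := fun i j e => li.injective (by simp only [e])
  let pr : Fin T → Option (Fin T) := fun i =>
    if h0 : 0 < i.val then some ⟨par i, (hp i i.2 h0).1.trans i.2⟩ else none
  have hpr : ∀ i t : Fin T, pr i = some t → 0 < i.val ∧ t.val = par i := by
    intro i t e
    by_cases h0 : 0 < i.val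
    · simp only [pr, dif_pos h0, Option.some.injEq] at e
      exact ⟨h0, by rw [← e]⟩
    · simp [pr, dif_neg h0] at e
  have fin : ∀ g : Fin (Fintype.card F + 1) ↪o Fin T,
      (∀ j j' : Fin (Fintype.card F + 1), j.val + 1 = j'.val → Lk (mk s c D0).𝒴
        (fun i : Fin T => res (fun k => s.colK k = c) (y' (x i))) (Set.range g) (g j) (g j')) →
      False := by
    intro g hg
    refine seq_false hA (side_pos h hv c) li hm (fun i => g (Fin.ofNat _ i)) ?_ fun i hi => ?_
    · intro i hi j hj e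
      have := congrArg Fin.val (g.injective e)
      simp only [Fin.val_ofNat] at this
      rwa [Nat.mod_eq_of_lt (by omega), Nat.mod_eq_of_lt (by omega)] at this
    · obtain ⟨α, β, a1, a2, v, a3, a4⟩ := hg (Fin.ofNat _ i) (Fin.ofNat _ (i + 1)) (by
        simp only [Fin.val_ofNat]
        rw [Nat.mod_eq_of_lt (by omega), Nat.mod_eq_of_lt (by omega)])
      refine ⟨α, β, a1, a2, v, Submodule.span_mono (Set.image_mono ?_) a3, a4⟩
      exact Set.compl_subset_compl.2 (by rintro _ ⟨t, -, rfl⟩; exact ⟨_, rfl⟩)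
  rcases hT pr (fun i t e => by
    obtain ⟨a1, a2⟩ := hpr i t e
    exact Fin.lt_def.2 (a2 ▸ (hp i i.2 a1).1)) with ⟨o, g, hg⟩ | ⟨g, hg⟩
  · rcases o with _ | o
    · have z : ∀ i, (g i).val = 0 := fun i => by
        by_contra h0
        have := hg i
        simp [pr, Nat.pos_of_ne_zero h0] at this
      have := g.injective (Fin.ext ((z ⟨0, by omega⟩).trans (z ⟨1, by omega⟩).symm))
      simp at this
    · have k : ∀ i, o < g i ∧ B' (w (g i)) (x (g i)) ≠ 0 ∧ B' (w (g i)) (x o) ≠ 0 := fun i => by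
        obtain ⟨a1, a2⟩ := hpr _ _ (hg i)
        have := hp _ (g i).2 a1
        rw [← a2] at this
        exact this
      refine fin g fun j j' _ => ?_
      obtain ⟨α, β, κ, a1, a2, a3⟩ := sib (c := c) (D0 := D0) sreb h' hδ
        (fun e => (k j).1.ne' (xi _ _ e)) (fun e => (k j').1.ne' (xi _ _ e)) (k j).2.1 (k j).2.2
        (k j').2.1 (k j').2.2
      refine ⟨α, β, a1, a2, _, Submodule.smul_mem _ κ (Submodule.subset_span ⟨o, ?_, rfl⟩), a3⟩
      rintro ⟨i, e⟩
      exact (k i).1.ne' e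
  · refine fin g fun j j' hj => ?_
    obtain ⟨a1, a2⟩ := hpr _ _ (hg j j' hj)
    obtain ⟨-, b1, b2⟩ := hp _ (g j').2 a1
    rw [← a2] at b2
    refine ⟨1, -(B' (w (g j')) (x (g j)) / B' (w (g j')) (x (g j'))), one_ne_zero,
      neg_ne_zero.2 (div_ne_zero b2 b1), 0, zero_mem _, ?_⟩
    simpa [sub_eq_add_neg] using diff_mem_Y (c := c) (D0 := D0) sreb h' hδ b2 b1

/-- The level of a connected commutative datum with a visible pair is bounded. -/
theorem crude (F : Type) [Field F] [Fintype F] : ∃ M, ALG F M := by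
  obtain ⟨T, hT⟩ := side_bound F
  refine ⟨T + T, fun K P _ _ d ha hr hd hn ht ⟨a, b, hab⟩ => ?_⟩
  obtain ⟨s, h, hδ⟩ := sys K P d ha hr hd hn
  have hv := vis_of_devD ha hab
  have h1 := hT K P s _ _ _ _ _ a b true h hv (hδ.2 ht)
  have h2 := hT K P s _ _ _ _ _ a b false h hv (hδ.2 ht)
  have e1 := card_split s.colK true
  have e2 := card_swap s.colK
  omega

end Pool.Agent.MP_d99b12_co.H30b
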