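import Pool.Agent.MP_d99b12_co.H30b.KW2
import Pool.Agent.MP_d99b12_co.H57.ALL
import Pool.Agent.MP_d99b12_co.H57.MINS

/-! # A visible petal bounds the auxiliary petal of the same system -/

namespace Pool.Agent.MP_d99b12_co.H30b

open Matrix Module H25 H25.ANEM H25.KILL H57

namespace KW

variable {F : Type} [Field F] [Fintype F] {K W J : Type} [Fintype K] [Fintype W] [Fintype J]
  [DecidableEq W] {s : Sys F K} {c : Bool} {p : ℕ} [Fact p.Prime] [Algebra (ZMod p) F]
  {D0 : Matrix {k // s.colK k = c} {k // ¬s.colK k = c} F} {col : W → Bool}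
  {y : W → K → F} {B : Matrix W W F} {o : W} {R U E : Finset W}
  {f : E → {k // s.colK k = c} → F} {w : Matrix {k // ¬s.colK k = c} J F}

omit [Fintype J] in
lemma ns (L : Lc c col y B o R U)
    (hi : ∀ φ, (geo p D0 y B o R E f w).ξ φ = 0 → Xi y B o R φ = 0) :
    (geo p D0 y B o R E f w).NS := by
  intro e i j l φ _ hφ h0 hn hξ hd
  change φ ⬝ᵥ pat B o R e = 0 at hd
  have h1 : ∑ t, up B o R φ t • y t = 0 := Xi_up φ ▸ hi φ hξ
  have h2 : ∑ t, up B o R φ t * B t e = 0 := neg_eq_zero.1 ((dot_up hφ _).symm.trans hd)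
  refine h0 ((hφ.mono (Finset.subset_univ _)).ext IsN.zero none ?_)
  suffices up B o R φ = 0 by
    rintro (_ | r) - hr
    · exact absurd rfl hr
    · have k := congrFun this r
      rw [up_coe] at k
      simpa [L.adj r r.2] using k
  obtain ⟨a, a', n, hne, hs⟩ : ∃ a a' n : Option R, pat B o R e a ≠ pat B o R e a' ∧
      ∀ t, t ≠ a → t ≠ a' → t ≠ n → φ t = 0 := by
    obtain ⟨a, ha, a', ha', hne⟩ := hn
    have aa : a ≠ a' := fun k => hne (by rw [k])
    obtain ⟨n, hn⟩ : ∃ n, ∀ t ∈ ({i, j, l} : Finset (Option R)), t = a ∨ t = a' ∨ t = n := by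
      simp only [Finset.mem_insert, Finset.mem_singleton] at ha ha' ⊢
      rcases ha with rfl | rfl | rfl <;> rcases ha' with rfl | rfl | rfl <;>
        first
        | exact absurd rfl aa
        | exact ⟨l, by tauto⟩
        | exact ⟨j, by tauto⟩
        | exact ⟨i, by tauto⟩
    exact ⟨a, a', n, hne, fun t k1 k2 k3 => hφ.1 t fun k => by
      rcases hn t k with k | k | k <;> contradiction⟩
  have sup : ∀ r r' r'' : R, (∀ t : R, t ≠ r → t ≠ r' → t ≠ r'' → φ (some t) = 0) →
      ∀ t, t ≠ r.1 → t ≠ r'.1 → t ≠ r''.1 → up B o R φ t = 0 := fun r r' r'' h t k1 k2 k3 => by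
    by_cases ht : t ∈ R
    · rw [up_coe φ ⟨t, ht⟩, h ⟨t, ht⟩ (fun k => k1 (congrArg Subtype.val k))
        (fun k => k2 (congrArg Subtype.val k)) fun k => k3 (congrArg Subtype.val k), zero_div]
    · exact up_not φ ht
  have two : ∀ r r' : R, B r e ≠ 0 → (∀ t : R, t ≠ r → t ≠ r' → φ (some t) = 0) →
      up B o R φ = 0 := fun r r' k h => L.ns2 r r.2 r' r'.2 e k _
    (fun t k1 k2 => sup r r' r' (fun t a b _ => h t a b) t k1 k2 k2) h1 h2
  rcases a with _ | a <;> rcases a' with _ | a'
  · exact absurd rfl hne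
  · exact two a' (n.getD a') (fun k => hne (by simp [pat, k])) fun t k1 k2 =>
      hs _ (by simp) (by simpa using k1) (by rintro rfl; exact k2 rfl)
  · exact two a (n.getD a) (fun k => hne (by simp [pat, k])) fun t k1 k2 =>
      hs _ (by simpa using k1) (by simp) (by rintro rfl; exact k2 rfl)
  rcases n with _ | n
  · by_cases k : B a e = 0
    · exact two a' a (fun k' => hne (by simp [pat, k, k'])) fun t k1 k2 =>
        hs _ (by simpa using k2) (by simpa using k1) (by simp)
    · exact two a a' k fun t k1 k2 => hs _ (by simpa using k1) (by simpa using k2) (by simp)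
  refine L.ns3 a a.2 a' a'.2 n n.2 e (fun k => hne ?_) _ (sup a a' n fun t k1 k2 k3 =>
    hs _ (by simpa using k1) (by simpa using k2) (by simpa using k3)) h1 ?_ h2
  · simp only [pat, Option.elim, sub_right_inj]
    rw [div_eq_div_iff (L.adj a a.2) (L.adj a' a'.2), k, mul_comm]
  · have := hφ.2
    rw [Fintype.sum_option, hs none (by simp) (by simp) (by simp), zero_add] at this
    rw [sumR fun t ht => by rw [up_not φ ht, zero_mul], ← this]
    exact Finset.sum_congr rfl fun r _ => by rw [up_coe, div_mul_cancel₀ _ (L.adj r r.2)]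

omit [Fintype F] [Fintype K] in
lemma indep {q : K → Prop} [DecidablePred q] {T : Finset W} (h : ∀ e ∈ T, ∀ k, ¬q k → y e k = 0)
    (hi : ∀ u : W → F, (∀ e, e ∉ T → u e = 0) → ∑ e, u e • y e = 0 → u = 0) :
    LinearIndependent F fun e : T => res q (y e) := by
  refine Fintype.linearIndependent_iff.2 fun g hg e => ?_
  have := hi (fun t => if h : t ∈ T then g ⟨t, h⟩ else 0) (fun t ht => dif_neg ht) (by
    have k := congrArg (ext q) hg
    rw [map_sum, map_zero] at k
    rw [sumR (R := T) fun t ht => by rw [dif_neg ht, zero_smul], ← k]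
    exact Finset.sum_congr rfl fun t _ => by rw [dif_pos t.2, map_smul, ext_res q (h t t.2)])
  simpa using congrFun this e

/-- The columns may be chosen to contain `o`. -/
lemma exists_ctx (h : SDisp s col y B) (hδ : s.δ = 0) (L : Lc c col y B o R U)
    (hA : (ANEM.mk s c D0).Ax) : ∃ (E : Finset W) (f : E → {k // s.colK k = c} → F) (Y : Set _),
      U.card ≤ E.card ∧ Ctx D0 col y B o R E f Y := by
  classical
  obtain ⟨r0, hr0, -⟩ := L.base
  have cU : ∀ e ∈ U, ¬col e = c := fun e he => by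
    obtain ⟨r, hr, k⟩ := L.adjU e he
    exact nbr h (L.colR r hr) k
  have iU := indep (q := fun k => s.colK k = c) (fun e he => col_supp h (cU e he)) L.ind
  obtain ⟨E, h1, h2, h3, h4⟩ : ∃ E : Finset W, U.card ≤ E.card ∧ (∀ e ∈ E, e ∈ U ∨ e = o) ∧
      (LinearIndependent F fun e : E => res (fun k => s.colK k = c) (y e)) ∧
      ((y o = 0 ∧ o ∉ E) ∨ o ∈ E) := by
    by_cases y0 : y o = 0
    · exact ⟨U, le_rfl, fun e he => Or.inl he, iU, Or.inl ⟨y0, fun k =>
        iU.ne_zero ⟨o, k⟩ (by simp [y0])⟩⟩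
    have y1 : res (fun k => s.colK k = c) (y o) ≠ 0 := fun k => y0 (by
      rw [← ext_res _ (col_supp h (nbr h (L.colR r0 hr0) (L.adj r0 hr0))), k, map_zero])
    obtain ⟨b, b1, b2, b3, b4⟩ := exists_linearIndepOn_extension
      (v := fun e => res (fun k => s.colK k = c) (y e)) (t := insert o ↑U)
      (LinearIndepOn.singleton (R := F) y1) (by simp)
    lift b to Finset W using b.toFinite
    refine ⟨b, ?_, fun e he => (b1 he).symm, b4, Or.inr (b2 rfl)⟩
    have := linearIndependent_le_span_aux' _ iU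
      (↑(b.image fun e => res (fun k => s.colK k = c) (y e)) : Set _) (by
        rintro _ ⟨e, rfl⟩
        rw [Finset.coe_image]
        exact b3 ⟨e, Or.inr e.2, rfl⟩)
    simp only [Fintype.card_coe, Finset.coe_sort_coe] at this
    exact this.trans Finset.card_image_le
  obtain ⟨f, Y, G⟩ := exists_frame hA.spanY h3 fun e => mem_Y h hδ e
  refine ⟨E, f, Y, h1, h, hδ, L.colR, L.adj, ⟨r0, hr0⟩, fun e he => ?_, G, h4⟩
  rcases h2 e he with k | rfl
  exacts [L.adjU e k, ⟨r0, hr0, L.adj r0 hr0⟩]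

end KW

open KW in
theorem killw {F : Type} [Field F] [Fintype F] (p k : ℕ) : KILLW F p k := by
  classical
  intro hp hp2 hk hq K P W _ _ _ s col y B Bs a b c col' y' B' o R U hδ hd hv h L _ h1 hJ
  have := Fact.mk hp
  have := charP_of_card hp (by omega) hq
  let _ : Algebra (ZMod p) F := ZMod.algebra F p
  obtain ⟨D0, hA⟩ := ax_mk hd hv hδ c
  obtain ⟨E, f, Y, hE, X⟩ := exists_ctx h hδ L hA
  refine ⟨fun hR => ?_, fun hR => ?_⟩
  · have := fin2 fin_all hp2 (finrank_of_card hq) (X.ax (p := p) (w := 1) (w' := 1) hA (X0 := ∅)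
      (Set.empty_subset _) (by simp) ((Submodule.finrank_le _).trans (by simp)) (one_mul _))
      (by simp [hR]) h1 hJ (Or.inl (by simp [hR]))
    rw [Fintype.card_coe] at this
    omega
  obtain ⟨r0, hr0, hb⟩ := L.base
  have supp : ∀ r ∈ R, ∀ k, ¬¬s.colK k = c → y' r k = 0 := fun r hr k hk =>
    row_supp h (L.colR r hr) k (not_not.1 hk)
  have li := indep (q := fun k => ¬s.colK k = c) (T := R.erase r0)
    (fun r hr => supp r (Finset.mem_of_mem_erase hr))
    fun u hu => hb u fun r hr => hu r fun k => by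
      rcases hr with hr | hr
      exacts [hr (Finset.mem_of_mem_erase k), Finset.ne_of_mem_erase k hr]
  obtain ⟨w, X0, G⟩ := exists_frame hA.spanX li fun e => mem_X h hδ e
  have hc : Fintype.card (R.erase r0) + 1 = R.card := by
    rw [Fintype.card_coe, Finset.card_erase_add_one hr0]
  have hc' : Fintype.card (Option R) = R.card + 1 := by simp
  have hle := li.fintype_card_le_finrank
  rw [finrank_fintype_fun_eq_card] at hle
  have ev : ∀ θ : W → F, (∀ t, t ∉ R.erase r0 → θ t = 0) → ∀ j : R.erase r0,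
      (res (fun k => ¬s.colK k = c) (∑ t, θ t • y' t) ᵥ* (of w)ᵀ) j = θ j := fun θ hθ j => by
    rw [vecMul_transpose, sumR (R := R.erase r0) fun t ht => by rw [hθ t ht, zero_smul], map_sum]
    change w j ⬝ᵥ _ = _
    simp [dotProduct_sum, G.dual, -res_apply]
  have := fin2 fin_all hp2 (finrank_of_card hq) (X.ax (p := p) (w := (of w)ᵀ)
    (w' := of fun j : R.erase r0 => res (fun k => ¬s.colK k = c) (y' j)) hA
    (G.subset (↑(Finset.univ : Finset (R.erase r0)))ᶜ)
    (fun ξ hξ => funext fun j => G.mem_perp (Finset.mem_univ j) ξ hξ)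
    (G.rank_perp Finset.univ) (by
      ext i j
      exact (dotProduct_comm _ _).trans ((G.dual j i).trans (by simp [one_apply, eq_comm]))))
    (by omega) (by omega) (by omega) (Or.inr ⟨by omega, fun ζ => ?_, ?_⟩)
  · rw [Fintype.card_coe E] at this
    omega
  · let θ : W → F := fun t => if h : t ∈ R.erase r0 then ζ ⟨t, h⟩ else 0
    refine ⟨dn B' o R fun t => θ t, isN_dn _, funext fun j => ?_⟩
    have : Xi y' B' o R (dn B' o R θ) = ∑ t, θ t • y' t := by
      rw [Xi_apply, sumR (R := R) fun t ht => by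
        rw [show θ t = 0 from dif_neg fun k => ht (Finset.mem_of_mem_erase k), zero_smul]]
      exact Finset.sum_congr rfl fun r _ => by simp [dn, L.adj r r.2]
    rw [xi_apply, this, ev θ fun t ht => dif_neg ht]
    exact dif_pos j.2
  · by_cases hr : ∀ e : E, H57.Rat p (pat B' o R e)
    · exact Or.inr hr
    push Not at hr
    refine Or.inl ⟨ns L fun φ hφ => ?_, X.nr hr.choose_spec⟩
    obtain ⟨ω, ω0, ω1, ω2⟩ := L.dep
    have ω3 : ω r0 ≠ 0 := fun k => ω0 (hb ω (fun r hr => hr.elim (ω1 r) fun e => e ▸ k) ω2)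
    let θ : W → F := up B' o R φ - (up B' o R φ r0 / ω r0) • ω
    have e1 : Xi y' B' o R φ = ∑ t, θ t • y' t := by
      simp only [θ, Xi_up, Pi.sub_apply, Pi.smul_apply, sub_smul, Finset.sum_sub_distrib,
        smul_assoc, ← Finset.smul_sum, ω2, smul_zero, sub_zero]
    have e2 : ∀ t, t ∉ R.erase r0 → θ t = 0 := fun t ht => by
      by_cases k : t = r0
      · simp [θ, k, ω3]
      · have : t ∉ R := fun k' => ht (Finset.mem_erase.2 ⟨k, k'⟩)
        simp [θ, up_not φ this, ω1 t this]
    rw [xi_apply, e1] at hφ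
    rw [e1]
    refine Finset.sum_eq_zero fun t _ => ?_
    by_cases k : t ∈ R.erase r0
    · rw [← ev θ e2 ⟨t, k⟩, hφ, Pi.zero_apply, zero_smul]
    · rw [e2 t k, zero_smul]

end Pool.Agent.MP_d99b12_co.H30b
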