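import Pool.Agent.MP_d99b12_co.H25.ODD
import Pool.Agent.MP_d99b12_co.H25.EXT
import Pool.Agent.MP_d99b12_co.H25.AUXL
import Pool.Agent.MP_d99b12_co.H25.PACK
import Pool.Agent.MP_d99b12_co.H25.LINK
import Pool.Agent.MP_d99b12_co.H25.CONNECT
import Pool.Agent.MP_d99b12_co.H25.SYS2
import Pool.Agent.MP_d99b12_co.H86.CLOSED
import Pool.Agent.MP_d99b12_co.H30b.ALLW
import Pool.Agent.MP_d99b12_co.H30b.KILLW

/-! # Assembly for all odd primes -/

namespace Pool.Agent.MP_d99b12_co.H30b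

open H25

theorem algr_odd {F : Type} [Field F] [Fintype F] {p k : ℕ} (hp : p.Prime) (h2 : p ≠ 2)
    (hk : 2 ≤ k) (hq : Fintype.card F = p ^ k) : ALGR F ((k - 1) * (p - 1) + 1) :=
  algr_of hp h2 hk hq (crude F) (H86.closed _)
    (pack hom (allw (ext link connect _) (auxSame _) (auxCongr _)) (auxSub _)) sys2 (auxLc _)
    (H57.mins p k) (killw p k)

theorem final_odd (p : ℕ) (hp : p.Prime) (h2 : p ≠ 2) (k : ℕ) (hk : 2 ≤ k) :
    ∃ h : ℕ, ∀ (F : Type) [Field F] [Fintype F], Fintype.card F = p ^ k →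
      ∀ (α : Type) [Finite α] (M : Matroid α),
      H30.TutteConnected M ((k - 1) * (p - 1) + 1 + 2) →
      ∀ (n : ℕ) (v : Fin (h + 1) → α → Fin n → F), (∀ i, H30.Rep M (v i)) →
      ∃ i j, i ≠ j ∧ H30.Equivalent M.E (v i) (v j) := by
  have := Fact.mk hp
  have hk0 : k ≠ 0 := by omega
  let _ := Fintype.ofFinite (GaloisField p k)
  have hc : Fintype.card (GaloisField p k) = p ^ k := by
    rw [← Nat.card_eq_fintype_card, GaloisField.card p k hk0]
  have h1 : 1 * 1 ≤ (k - 1) * (p - 1) := Nat.mul_le_mul (by omega) (by have := hp.two_le; omega)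
  exact final_of_main hk0 (main_of_algr (by omega) (algr_odd hp h2 hk hc))

end Pool.Agent.MP_d99b12_co.H30b
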