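import Pool.Agent.MP_d99b12_co.H30b.CRUDE
import Pool.Agent.MP_d99b12_co.H57.Basic

/-! # From a display to the geometric data, part 1: exchanges, sections, the simplex of a fan -/

namespace Pool.Agent.MP_d99b12_co.H30b

open Matrix Module H25 H25.ANEM H25.KILL H57

namespace KW

variable {F : Type} [Field F] [Fintype F] {K W : Type} [Fintype K] [Fintype W] {s : Sys F K}
  {c : Bool} {D0 : Matrix {k // s.colK k = c} {k // ¬s.colK k = c} F} {col : W → Bool}
  {y : W → K → F} {B : Matrix W W F}

omit [Fintype F] in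
lemma nbr (h : SDisp s col y B) {r e : W} (hr : col r = c) (h0 : B r e ≠ 0) : ¬col e = c :=
  fun k => col_ne h h0 (hr.trans k.symm)

/-- One exchange of a row and a column. -/
lemma piv (h : SDisp s col y B) (hδ : s.δ = 0) {r b : W} (hr : col r = c) (h0 : B r b ≠ 0) :
    ∃ col' y' B', SDisp s col' y' B' ∧ col' b = c ∧ y' b = -(B r b)⁻¹ • y r ∧
      (∀ q, col q = c → q ≠ r → col' q = c ∧ y' q = y q - (B q b / B r b) • y r) ∧
      ∀ e, ¬col e = c → e ≠ b → ¬col' e = c ∧ y' e = y e - (B r e / B r b) • y b ∧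
        B' b e = -(B r e / B r b) ∧
        ∀ q, col q = c → q ≠ r → B' q e = B q e - B q b * (B r e / B r b) := by
  have hb := nbr h hr h0
  have rb : r ≠ b := fun e => hb (e ▸ hr)
  have same : ∀ {u v}, ¬col u = c → ¬col v = c → col u = col v := fun {u v} => by
    cases col u <;> cases col v <;> cases c <;> simp
  refine ⟨_, _, _, (sreb K W s col y B r b h h0 (by
    rw [skew h hδ]; exact neg_ne_zero.2 h0)).1, ?_, by simp [reY, rb.symm], fun q hq qr => ?_,
    fun e he eb => ?_⟩
  · rw [colFlip_of_mem _ (by simp)]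
    revert hb
    cases col b <;> cases c <;> simp
  · have qb : q ≠ b := fun e => hb (e ▸ hq)
    rw [colFlip_of_notMem _ (by simp [qr, qb]), reY_other qr qb, h.bip _ _ (hq.trans hr.symm)]
    exact ⟨hq, by simp⟩
  · have er : e ≠ r := fun k => he (k ▸ hr)
    rw [colFlip_of_notMem _ (by simp [er, eb]), reY_other er eb, h.bip _ _ (same he hb),
      skew h hδ r e, skew h hδ r b, epiv_yv _ rb er eb]
    refine ⟨he, by simp, by ring, fun q hq qr => ?_⟩
    have qb : q ≠ b := fun k => hb (k ▸ hq)
    rw [epiv_uv _ qr qb er eb, h.bip _ _ (hq.trans hr.symm)]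
    ring

lemma edgeH (h : SDisp s col y B) (hδ : s.δ = 0) {q e : W} (hq : col q = c) (h0 : B q e ≠ 0) :
    vecMulVec (res (fun k => s.colK k = c) (y e))
      ((-B q e)⁻¹ • res (fun k => ¬s.colK k = c) (y q)) ∈ (mk s c D0).H := by
  refine ⟨_, edge_mem sreb h hδ h0, ?_⟩
  change -(B q e)⁻¹ • blk s.colK c (wedge (y q) (y e)) = _
  rw [blk_wedge h hq, vecMulVec_smul, inv_neg]

lemma lamH (h : SDisp s col y B) (hδ : s.δ = 0) {e : W} (he : ¬col e = c) : Submodule.span F
    {ζ | vecMulVec (res (fun k => s.colK k = c) (y e)) ζ ∈ (mk s c D0).H} = ⊤ := by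
  refine top_le_iff.1 ?_
  rw [← span_res h]
  refine Submodule.span_le.2 ?_
  rintro _ ⟨q, rfl⟩
  by_cases hq : col q = c
  · obtain ⟨κ, k0, hk⟩ := lam sreb h hδ (a := q) (b := e) (fun k => he (k ▸ hq))
    refine (Submodule.smul_mem_iff _ k0).1 (Submodule.subset_span ⟨_, hk, ?_⟩)
    change κ • blk s.colK c (wedge (y q) (y e)) = _
    rw [blk_wedge h hq, vecMulVec_smul]
  · have : res (fun k => ¬s.colK k = c) (y q) = 0 := funext fun k => col_supp h hq k k.2
    simp only [this]
    exact zero_mem _

/-- On the columns `C` the functional `g` is a combination of the rows `T`. -/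
def Rep (s : Sys F K) (c : Bool) (y : W → K → F) (B : Matrix W W F) (T : Finset W) (C : Set W)
    (g : {k // s.colK k = c} → F) : Prop :=
  ∃ θ : W → F, ∀ e ∈ C, g ⬝ᵥ res (fun k => s.colK k = c) (y e) = ∑ r ∈ T, θ r * B r e

lemma rep (hδ : s.δ = 0) {G : Set ({k // s.colK k = c} → F)} {φ : {k // s.colK k = c} → F}
    (hφ : ∀ v ∈ (mk s c D0).𝒴, (∀ g ∈ G, g ⬝ᵥ v = 0) → φ ⬝ᵥ v = 0) (T : Finset W) :
    ∀ (col : W → Bool) (y : W → K → F) (B : Matrix W W F) (C : Set W), SDisp s col y B →
      (∀ r ∈ T, col r = c) → (∀ e ∈ C, ¬col e = c) → (∀ g ∈ G, Rep s c y B T C g) →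
      Rep s c y B T C φ := by
  classical
  induction T using Finset.induction_on with
  | empty =>
    intro col y B C h _ _ hG
    refine ⟨0, fun e he => ?_⟩
    rw [Finset.sum_empty]
    exact hφ _ (mem_Y h hδ e) fun g hg => by simpa using (hG g hg).choose_spec e he
  | insert r T hr ih =>
    intro col y B C h hT hC hG
    have hT' : ∀ q ∈ T, col q = c := fun q hq => hT q (Finset.mem_insert_of_mem hq)
    have ne : ∀ q ∈ T, q ≠ r := fun q hq e => hr (e ▸ hq)
    by_cases h0 : ∀ e ∈ C, B r e = 0
    · obtain ⟨θ, hθ⟩ := ih col y B C h hT' hC fun g hg => (hG g hg).imp fun θ k e he => by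
        rw [k e he, Finset.sum_insert hr, h0 e he, mul_zero, zero_add]
      exact ⟨θ, fun e he => by rw [hθ e he, Finset.sum_insert hr, h0 e he, mul_zero, zero_add]⟩
    push Not at h0
    obtain ⟨b, hb, h0⟩ := h0
    obtain ⟨col', y', B', h', -, -, h1, h2⟩ := piv h hδ (hT r (Finset.mem_insert_self _ _)) h0
    have key : ∀ (θ : W → F) e, e ∈ C → e ≠ b → ∑ q ∈ T, θ q * B' q e =
        ∑ q ∈ T, θ q * B q e - B r e / B r b * ∑ q ∈ T, θ q * B q b := fun θ e he eb => by
      rw [Finset.mul_sum, ← Finset.sum_sub_distrib]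
      exact Finset.sum_congr rfl fun q hq => by
        rw [(h2 e (hC e he) eb).2.2.2 q (hT' q hq) (ne q hq)]; ring
    obtain ⟨θ, hθ⟩ := ih col' y' B' (C \ {b}) h' (fun q hq => (h1 q (hT' q hq) (ne q hq)).1)
      (fun e he => (h2 e (hC e he.1) he.2).1) fun g hg => (hG g hg).imp fun θ k e he => by
        rw [(h2 e (hC e he.1) he.2).2.1, map_sub, map_smul, dotProduct_sub, dotProduct_smul,
          k e he.1, k b hb, key θ e he.1 he.2, Finset.sum_insert hr, Finset.sum_insert hr,
          smul_eq_mul]
        field_simp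
        ring
    refine ⟨Function.update θ r ((φ ⬝ᵥ res (fun k => s.colK k = c) (y b) -
      ∑ q ∈ T, θ q * B q b) / B r b), fun e he => ?_⟩
    have up : ∀ t, ∑ q ∈ T, Function.update θ r t q * B q e = ∑ q ∈ T, θ q * B q e := fun t =>
      Finset.sum_congr rfl fun q hq => by rw [Function.update_of_ne (ne q hq)]
    rw [Finset.sum_insert hr, Function.update_self, up]
    by_cases eb : e = b
    · rw [eb]; field_simp; ring
    · have := hθ e ⟨he, eb⟩
      rw [(h2 e (hC e he) eb).2.1, map_sub, map_smul, dotProduct_sub, dotProduct_smul,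
        key θ e he eb, smul_eq_mul] at this
      linear_combination this

/-! ## The simplex of a fan -/

section Fan

variable (y B) (o : W) (R : Finset W) [DecidableEq W]

/-- The pattern of the column `e`. -/
def pat (e : W) (i : Option R) : F :=
  (if e = o then 1 else 0) - i.elim 0 fun r => B r e / B r o

/-- The row combination of an element of `N`. -/
def up (φ : Option R → F) (t : W) : F := if h : t ∈ R then φ (some ⟨t, h⟩) / B t o else 0

/-- The element of `N` of a row combination. -/
def dn (θ : W → F) (i : Option R) : F := i.elim (-∑ r : R, θ r * B r o) fun r => θ r * B r o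

/-- The mark of a row combination. -/
def Xi : (Option R → F) →ₗ[F] (K → F) :=
  ∑ r : R, (LinearMap.proj (some r)).smulRight ((B r o)⁻¹ • y r)

/-- The element of the display that belongs to an index. -/
def el (i : Option R) : W := i.elim o Subtype.val

variable {y B o R}

omit [Fintype F] [Fintype K] [Fintype W] [DecidableEq W] in
lemma Xi_apply (φ : Option R → F) :
    Xi y B o R φ = ∑ r : R, (φ (some r) / B r o) • y r := by
  simp [Xi, smul_smul, div_eq_mul_inv]

omit [Fintype F] [DecidableEq W] in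
lemma sumR {M : Type} [AddCommMonoid M] {G : W → M} (h : ∀ t, t ∉ R → G t = 0) :
    ∑ t, G t = ∑ r : R, G r := by
  rw [Finset.sum_coe_sort R G]
  exact (Finset.sum_subset (Finset.subset_univ _) fun t _ ht => h t ht).symm

omit [Fintype F] [Fintype W] in
lemma up_not (φ : Option R → F) {t : W} (h : t ∉ R) : up B o R φ t = 0 := dif_neg h

omit [Fintype F] [Fintype W] in
lemma up_coe (φ : Option R → F) (r : R) : up B o R φ r = φ (some r) / B r o := dif_pos r.2

omit [Fintype F] [Fintype K] in
lemma Xi_up (φ : Option R → F) : Xi y B o R φ = ∑ t, up B o R φ t • y t := by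
  rw [sumR fun t ht => by rw [up_not φ ht, zero_smul], Xi_apply]
  exact Finset.sum_congr rfl fun r _ => by rw [up_coe]

omit [Fintype F] [Fintype W] in
lemma dot_pat {O : Finset (Option R)} {φ : Option R → F} (h : IsN O φ) (e : W) :
    φ ⬝ᵥ pat B o R e = -∑ r : R, φ (some r) / B r o * B r e := by
  have := h.2
  simp only [dotProduct, pat, mul_sub, Finset.sum_sub_distrib, ← Finset.sum_mul, h.2,
    Fintype.sum_option, Option.elim, mul_zero, zero_add, zero_mul, zero_sub, neg_inj]
  exact Finset.sum_congr rfl fun r _ => by ring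

omit [Fintype F] in
lemma dot_up {O : Finset (Option R)} {φ : Option R → F} (h : IsN O φ) (e : W) :
    φ ⬝ᵥ pat B o R e = -∑ t, up B o R φ t * B t e := by
  rw [sumR fun t ht => by rw [up_not φ ht, zero_mul], dot_pat h]
  simp only [up_coe]

omit [Fintype F] [Fintype W] [DecidableEq W] in
lemma isN_dn (θ : W → F) : IsN Finset.univ (dn B o R θ) :=
  ⟨fun i hi => absurd (Finset.mem_univ i) hi, by simp [dn, Fintype.sum_option]⟩

/-- The display without the index `i`. -/
lemma disp (h : SDisp s col y B) (hδ : s.δ = 0) (hc : ∀ r ∈ R, col r = c)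
    (ho : ∀ r ∈ R, B r o ≠ 0) (i : Option R) : ∃ col' y' B', SDisp s col' y' B' ∧
      (∀ e, ¬col e = c → e ≠ o ∨ i = none → ¬col' e = c ∧
        y' e = y e + (pat B o R e i - pat B o R e none) • y o) ∧
      ∀ l, l ≠ i → ∃ n : F, n ≠ 0 ∧ col' (el o R l) = c ∧
        y' (el o R l) = n • Xi y B o R (Pi.single l 1 - Pi.single i 1) ∧
        ∀ e, ¬col e = c → e ≠ o ∨ i = none →
          B' (el o R l) e = -(n * (pat B o R e l - pat B o R e i)) := by
  have x0 : Xi y B o R (Pi.single none 1) = 0 := by simp [Xi_apply]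
  have x1 : ∀ r : R, Xi y B o R (Pi.single (some r) 1) = (B r o)⁻¹ • y r := fun r => by
    rw [Xi_apply, Finset.sum_eq_single r (fun q _ hq => by simp [hq]) (by simp)]
    simp
  rcases i with _ | r
  · refine ⟨col, y, B, h, fun e he _ => ⟨he, by simp⟩, ?_⟩
    rintro (_ | q) hl
    · exact absurd rfl hl
    · have := ho q q.2
      refine ⟨B q o, this, hc q q.2, ?_, fun e _ _ => ?_⟩
      · rw [map_sub, x0, x1, sub_zero, smul_inv_smul₀ this]; rfl
      · simp only [pat, el, Option.elim]
        field_simp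
        ring
  · have hr := ho r r.2
    obtain ⟨col', y', B', h', h1, h2, h3, h4⟩ := piv h hδ (hc r r.2) hr
    refine ⟨col', y', B', h', fun e he eo => ?_, ?_⟩
    · obtain ⟨k1, k2, -⟩ := h4 e he (by simpa using eo)
      refine ⟨k1, ?_⟩
      rw [k2]
      simp only [pat, Option.elim]
      module
    rintro (_ | q) hl
    · refine ⟨1, one_ne_zero, h1, ?_, fun e he eo => ?_⟩
      · rw [map_sub, x0, x1, one_smul, zero_sub, ← neg_smul]; exact h2
      · rw [show el o R none = o from rfl, (h4 e he (by simpa using eo)).2.2.1]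
        simp only [pat, Option.elim]
        ring
    · have hq := ho q q.2
      have qr : (q : W) ≠ r := fun e => hl (congrArg some (Subtype.ext e))
      refine ⟨B q o, hq, (h3 q (hc q q.2) qr).1, ?_, fun e he eo => ?_⟩
      · rw [map_sub, x1, x1, smul_sub, smul_inv_smul₀ hq, smul_smul, ← div_eq_mul_inv]
        exact (h3 q (hc q q.2) qr).2
      · rw [show el o R (some q) = q from rfl,
          (h4 e he (by simpa using eo)).2.2.2 q (hc q q.2) qr]
        simp only [pat, Option.elim]
        field_simp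
        ring

end Fan

end KW

end Pool.Agent.MP_d99b12_co.H30b
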