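import Pool.Agent.MP_d99b12_co.H30b.KW1

/-! # From a display to the geometric data, part 2: the axioms -/

namespace Pool.Agent.MP_d99b12_co.H30b

open Matrix Module H25 H25.ANEM H25.KILL H57

namespace KW

variable {F : Type} [Field F] [Fintype F] {K W J : Type} [Fintype K] [Fintype W] [Fintype J]
  [DecidableEq W] {s : Sys F K} {c : Bool} (p : ℕ) [Fact p.Prime] [Algebra (ZMod p) F]
  (D0 : Matrix {k // s.colK k = c} {k // ¬s.colK k = c} F) (col : W → Bool)
  (y : W → K → F) (B : Matrix W W F) (o : W) (R E : Finset W)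
  (f : E → {k // s.colK k = c} → F) (Y : Set ({k // s.colK k = c} → F))
  (w : Matrix {k // ¬s.colK k = c} J F)

open Classical in
/-- The geometric data of the rows `R` around `o` and the columns `E`. -/
noncomputable def geo : Geo p F (Option R) E J where
  a e := pat B o R e
  i0 := none
  An := if y o = 0 then Finset.univ else Finset.univ.erase none
  uo := of f *ᵥ res (fun k => s.colK k = c) (y o)
  t := of f * D0 * w
  H := AddSubgroup.toZModSubmodule p ((ANEM.mk s c D0).H.map (AddMonoidHom.mk' (fun h => of f * h * w)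
    fun a b => by rw [Matrix.mul_add, Matrix.add_mul]))
  ξ := w.vecMulLinear ∘ₗ res (fun k => ¬s.colK k = c) ∘ₗ Xi y B o R

/-- The standing hypotheses. -/
structure Ctx : Prop where
  h : SDisp s col y B
  hδ : s.δ = 0
  hc : ∀ r ∈ R, col r = c
  ho : ∀ r ∈ R, B r o ≠ 0
  ne : R.Nonempty
  adj : ∀ e ∈ E, ∃ r ∈ R, B r e ≠ 0
  fr : Frame (ANEM.mk s c D0).𝒴 (fun e : E => res (fun k => s.colK k = c) (y e)) f Y
  oE : (y o = 0 ∧ o ∉ E) ∨ o ∈ E

variable {p D0 col y B o R E f Y w}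

omit [Fintype W] [Fintype J] in
lemma mem_geo {u ζ} (h : vecMulVec u ζ ∈ (ANEM.mk s c D0).H) :
    vecMulVec (of f *ᵥ u) (ζ ᵥ* w) ∈ (geo p D0 y B o R E f w).H :=
  ⟨_, h, by change of f * vecMulVec u ζ * w = _; rw [mul_vecMulVec, vecMulVec_mul]⟩

omit [Fintype W] [Fintype J] in
lemma xi_apply (φ) : (geo p D0 y B o R E f w).ξ φ =
    res (fun k => ¬s.colK k = c) (Xi y B o R φ) ᵥ* w := rfl

namespace Ctx

variable (X : Ctx D0 col y B o R E f Y)
include X

lemma colE (e : E) : ¬col e = c := by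
  obtain ⟨r, hr, h⟩ := X.adj e e.2
  exact nbr X.h (X.hc r hr) h

lemma colo : ¬col o = c := nbr X.h (X.hc _ X.ne.choose_spec) (X.ho _ X.ne.choose_spec)

lemma fy (e : E) : of f *ᵥ res (fun k => s.colK k = c) (y e) = Pi.single e 1 :=
  funext fun t => (X.fr.dual t e).trans (Pi.single_apply e (1 : F) t).symm

lemma pat_o : pat B o R o = Pi.single none 1 := by
  funext i
  rcases i with _ | r
  · simp [pat]
  · simp [pat, X.ho r r.2]

omit [Fintype J] in
lemma yv_eq (e : E) (i : Option R) : (geo p D0 y B o R E f w).yv e i =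
    of f *ᵥ res (fun k => s.colK k = c) (y e + (pat B o R e i - pat B o R e none) • y o) := by
  rw [map_add, map_smul, mulVec_add, mulVec_smul, X.fy]
  rfl

omit [Fintype J] in
lemma yv_o {e : E} {i : Option R} (h : ¬((e : W) ≠ o ∨ i = none)) :
    (geo p D0 y B o R E f w).yv e i = 0 := by
  push Not at h
  rw [X.yv_eq, h.1, X.pat_o]
  simp [h.2]

omit [Fintype J] in
lemma uo_iff (e : E) : (geo p D0 y B o R E f w).uo e = 0 ↔ (e : W) ≠ o := by
  change (of f *ᵥ res (fun k => s.colK k = c) (y o)) e = 0 ↔ _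
  rcases X.oE with h | h
  · simpa [h.1] using fun k : (e : W) = o => h.2 (k ▸ e.2)
  · rw [X.fy ⟨o, h⟩]
    simp [Pi.single_apply, Subtype.ext_iff]

lemma yo (h : o ∈ E) : y o ≠ 0 := fun k => by
  have := congrFun (X.fy ⟨o, h⟩) ⟨o, h⟩
  simp [k] at this

omit [Fintype J] in
lemma edge (e : E) (i i' : Option R) (hne : pat B o R e i ≠ pat B o R e i') :
    vecMulVec ((geo p D0 y B o R E f w).yv e i) ((pat B o R e i' - pat B o R e i)⁻¹ •
      (geo p D0 y B o R E f w).ξ (Pi.single i' 1 - Pi.single i 1)) ∈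
      (geo p D0 y B o R E f w).H := by
  by_cases h : (e : W) ≠ o ∨ i = none
  · obtain ⟨col', y', B', h', h1, h2⟩ := disp X.h X.hδ X.hc X.ho i
    obtain ⟨n, n0, k1, k2, k3⟩ := h2 i' fun k => hne (by rw [k])
    have h0 := sub_ne_zero.2 hne.symm
    have := mem_geo (p := p) (y := y) (B := B) (o := o) (R := R) (f := f) (w := w)
      (edgeH (D0 := D0) h' X.hδ k1 (e := e) (by
        rw [k3 e (X.colE e) h]; exact neg_ne_zero.2 (mul_ne_zero n0 h0)))
    rw [(h1 e (X.colE e) h).2, ← X.yv_eq (p := p) (w := w), k2, k3 e (X.colE e) h, neg_neg,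
      map_smul, smul_smul, smul_vecMul] at this
    rw [xi_apply]
    convert this using 3
    field_simp
  · rw [X.yv_o h, zero_vecMulVec]
    exact zero_mem _

lemma lam [DecidableEq J] {w' : Matrix J {k // ¬s.colK k = c} F} (hw : w' * w = 1) (e : E)
    (i : Option R) : Submodule.span F {ζ | vecMulVec ((geo p D0 y B o R E f w).yv e i) ζ ∈
      (geo p D0 y B o R E f w).H} = ⊤ := by
  refine eq_top_iff.2 fun ζ _ => ?_
  by_cases h : (e : W) ≠ o ∨ i = none
  · obtain ⟨col', y', B', h', h1, -⟩ := disp X.h X.hδ X.hc X.ho i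
    obtain ⟨k1, k2⟩ := h1 e (X.colE e) h
    have := Submodule.apply_mem_span_image_of_mem_span w.vecMulLinear
      (lamH (D0 := D0) h' X.hδ k1 ▸ Submodule.mem_top (x := ζ ᵥ* w'))
    rw [vecMulLinear_apply, vecMul_vecMul, hw, vecMul_one] at this
    refine Submodule.span_mono ?_ this
    rintro _ ⟨l, hl, rfl⟩
    rw [Set.mem_ofPred_eq, X.yv_eq, ← k2]
    exact mem_geo hl
  · refine Submodule.subset_span ?_
    rw [Set.mem_ofPred_eq, X.yv_o h, zero_vecMulVec]
    exact zero_mem _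

omit [Fintype J] in
lemma nr {e0 : E} (h0 : ¬H57.Rat p (pat B o R e0)) : (geo p D0 y B o R E f w).NR := by
  have o0 : (e0 : W) ≠ o := fun k => h0 ⟨1, fun i i' => ⟨_, by
    have : ∀ l, pat B o R e0 l ∈ Fp (F := F) p := fun l => by
      rw [k, X.pat_o, Pi.single_apply]
      split_ifs
      exacts [Fp.one, Fp.zero]
    exact Fp.sub (this i) (this i'), (mul_one _).symm⟩⟩
  refine ⟨_, e0, h0, (X.uo_iff e0).2 o0, fun e hne he i j l η hb hη η0 η1 => ?_⟩
  have eo := (X.uo_iff e).1 he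
  have hne' : (e : W) ≠ e0 := fun k => hne (Subtype.ext k)
  change η ⬝ᵥ pat B o R e ≠ 0 at η1
  have ij : i ≠ j := fun k => hb (by rw [k])
  have b0 := sub_ne_zero.2 hb.symm
  have two : ∀ ψ, IsN Finset.univ ψ → (∀ t, t ≠ i → t ≠ j → ψ t = 0) → ψ ⬝ᵥ pat B o R e0 = 0 →
      ψ = 0 := fun ψ h1 h2 h3 => by
    have k := h1.eq_edge (Finset.mem_univ i) (Finset.mem_univ j) ij fun t _ => h2 t
    rw [k, smul_dotProduct, edge_dot, smul_eq_mul] at h3
    rw [k, (mul_eq_zero.1 h3).resolve_right (sub_ne_zero.2 hb), zero_smul]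
  have hη' := hη.mono (Finset.subset_univ _)
  have l0 : l ≠ i ∧ l ≠ j := by
    by_contra k
    refine η1 (by
      rw [two η hη' (fun t h1 h2 => hη.1 t (by
        simp only [Finset.mem_insert, Finset.mem_singleton, not_or]
        exact ⟨h1, h2, fun k' => k (k' ▸ ⟨h1, h2⟩)⟩)) η0, zero_dotProduct])
  set ρ := (pat B o R e0 l - pat B o R e0 i) / (pat B o R e0 j - pat B o R e0 i) with hρ
  set μ : Option R → F := (Pi.single l 1 - Pi.single i 1) - ρ • (Pi.single j 1 - Pi.single i 1)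
    with hμ
  have e1 : η = η l • μ := sub_eq_zero.1 (two _ (hη'.sub (((isN_edge (Finset.mem_univ _)
      (Finset.mem_univ _)).sub ((isN_edge (Finset.mem_univ _) (Finset.mem_univ _)).smul _)).smul _))
    (fun t h1 h2 => by
      by_cases k : t = l
      · simp [hμ, k, l0.1, l0.2]
      · simp [hμ, k, h1, h2, hη.1 t (by simp [k, h1, h2])])
    (by
      rw [sub_dotProduct, η0, smul_dotProduct, hμ, sub_dotProduct, smul_dotProduct, edge_dot,
        edge_dot, hρ]
      simp [div_mul_cancel₀ _ b0]))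
  rw [e1, smul_dotProduct, smul_eq_mul] at η1
  obtain ⟨col', y', B', h', h1, h2⟩ := disp X.h X.hδ X.hc X.ho i
  obtain ⟨n, n0, k1, k2, k3⟩ := h2 j ij.symm
  obtain ⟨m, m0, q1, q2, q3⟩ := h2 l l0.1
  obtain ⟨a1, a2⟩ := h1 e (X.colE e) (Or.inl eo)
  obtain ⟨-, a3⟩ := h1 e0 (X.colE e0) (Or.inl o0)
  have r0 := k3 e0 (X.colE e0) (Or.inl o0)
  obtain ⟨col2, y2, B2, g, -, -, g1, g2⟩ := piv h' X.hδ k1 (b := e0) (by
    rw [r0]; exact neg_ne_zero.2 (mul_ne_zero n0 b0))
  have lj : el o R l ≠ el o R j := fun k => l0.2 (by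
    have oR : ∀ r : R, o ≠ r := fun r k => X.colo (k ▸ X.hc r r.2)
    rcases l with _ | l <;> rcases j with _ | j
    · rfl
    · exact absurd k (oR j)
    · exact absurd k.symm (oR l)
    · exact congrArg some (Subtype.ext k))
  obtain ⟨c1, c2⟩ := g1 _ q1 lj
  obtain ⟨-, c3, -, c4⟩ := g2 e a1 hne'
  have c5 : B2 (el o R l) e = -(m * μ ⬝ᵥ pat B o R e) := by
    rw [c4 _ q1 lj, r0, q3 e0 (X.colE e0) (Or.inl o0), q3 e (X.colE e) (Or.inl eo),
      k3 e (X.colE e) (Or.inl eo), hμ, sub_dotProduct, smul_dotProduct, edge_dot, edge_dot, hρ,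
      smul_eq_mul]
    field_simp
    ring
  have c6 : y2 (el o R l) = m • Xi y B o R μ := by
    rw [c2, r0, q3 e0 (X.colE e0) (Or.inl o0), k2, q2, hμ, map_sub _ (_ - _), map_smul, smul_sub,
      smul_smul, smul_smul, hρ]
    congr 2
    field_simp
  have μ0 := right_ne_zero_of_mul η1
  have := mem_geo (p := p) (y := y) (B := B) (o := o) (R := R) (f := f) (w := w)
    (edgeH (D0 := D0) g X.hδ c1 (e := e) (by rw [c5]; exact neg_ne_zero.2 (mul_ne_zero m0 μ0)))
  rw [c3, a2, a3, c5, c6, neg_neg, map_smul, smul_smul, smul_vecMul] at this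
  set τ := B' (el o R j) e / B' (el o R j) e0
  refine ⟨-τ, (pat B o R e i - pat B o R e none) - τ * (pat B o R e0 i - pat B o R e0 none), ?_⟩
  convert this using 2
  · simp only [map_sub, map_add, map_smul, mulVec_sub, mulVec_add, mulVec_smul, X.fy]
    change _ + _ • of f *ᵥ res (fun k => s.colK k = c) (y o) = _
    module
  · change (η ⬝ᵥ pat B o R e)⁻¹ • _ = _
    have := left_ne_zero_of_mul η1
    rw [← xi_apply (p := p) (D0 := D0) (E := E) (f := f), e1, map_smul, smul_smul,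
      smul_dotProduct, smul_eq_mul]
    congr 1
    field_simp

lemma win (hA : (ANEM.mk s c D0).Ax) {X0 : Set ({k // ¬s.colK k = c} → F)} (hX : X0 ⊆ (ANEM.mk s c D0).𝒳)
    (hX0 : ∀ ξ ∈ X0, ξ ᵥ* w = 0) (hr : finrank F (KILL.perp X0) ≤ Fintype.card J)
    (hw : ∀ x, w *ᵥ x = 0 → x = 0) (T : Finset E) (hT : T.card + 1 = Fintype.card J) (v : E → F)
    (hv : ∃ e ∈ Tᶜ, v e ≠ 0)
    (hP : PIN Finset.univ (geo p D0 y B o R E f w).An Tᶜ (geo p D0 y B o R E f w).a v) :
    ∀ h ∈ (geo p D0 y B o R E f w).H, ∀ x, x ≠ 0 →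
      (∀ e ∈ T, (((geo p D0 y B o R E f w).t + h) *ᵥ x) e = 0) →
      ∑ e ∈ Tᶜ, v e * (((geo p D0 y B o R E f w).t + h) *ᵥ x) e ≠ 0 := by
  classical
  rintro _ ⟨h, hh, rfl⟩ x hx h1 h2
  obtain ⟨e1, he1, v1⟩ := hv
  have row : ∀ e, (((geo p D0 y B o R E f w).t + of f * h * w) *ᵥ x) e =
      f e ⬝ᵥ (D0 + h) *ᵥ w *ᵥ x := fun e => by
    change ((of f * D0 * w + of f * h * w) *ᵥ x) e = (of f *ᵥ (D0 + h) *ᵥ w *ᵥ x) e
    rw [mulVec_mulVec, mulVec_mulVec, Matrix.mul_add, Matrix.add_mul]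
  let u : E → {k // s.colK k = c} → F := fun e => res (fun k => s.colK k = c) (y e)
  have du : ∀ a b, f a ⬝ᵥ u b = if a = b then 1 else 0 := X.fr.dual
  let g : Option T → {k // s.colK k = c} → F := fun t => t.elim (∑ e ∈ Tᶜ, v e • f e) fun k => f k
  have g0 : ∀ e, g none ⬝ᵥ u e = if e ∈ Tᶜ then v e else 0 := fun e => by
    simp [g, sum_dotProduct, du]
  have g1 : ∀ k : T, ∀ e ∈ Tᶜ, g (some k) ⬝ᵥ u e = 0 := fun k e he =>
    (du k e).trans (if_neg fun e' : (k : E) = e => Finset.mem_compl.1 he (e' ▸ k.2))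
  refine false_of_pin hA (g := g) (v := fun t => t.elim ((v e1)⁻¹ • u e1) fun k => u k) ?_
    (Y := {z | z ∈ (ANEM.mk s c D0).𝒴 ∧ ∀ t, g t ⬝ᵥ z = 0}) (fun _ k => k.1) hX (fun t z hz => hz.2 t)
    (fun φ hφ => ?_) (by simpa [hT] using hr) hh (x := w *ᵥ x) (fun k => hx (hw x k))
    (fun ξ hξ => by rw [dotProduct_mulVec, hX0 ξ hξ, zero_dotProduct]) ?_
  · rintro (_ | a) (_ | b)
    · simp [g0, he1, v1]
    · simp [g0, b.2]
    · simp [g1 a e1 he1]
    · exact (du a b).trans (by simp only [Option.some.injEq, SetLike.coe_eq_coe])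
  · obtain ⟨σ, hσ⟩ := hP (fun e => φ ⬝ᵥ u e) fun ψ hψ => by
      let C : Set W := {e | (∃ k : e ∈ E, ⟨e, k⟩ ∈ Tᶜ ∧ ψ ⬝ᵥ pat B o R e = v ⟨e, k⟩) ∨
        (e = o ∧ y o = 0 ∧ ψ none = 0)}
      let S : Finset W := Finset.univ.filter fun t => up B o R ψ t ≠ 0
      have SR : ∀ t ∈ S, t ∈ R := fun t ht => by_contra fun k =>
        (Finset.mem_filter.1 ht).2 (up_not ψ k)
      obtain ⟨θ, hθ⟩ := rep (D0 := D0) X.hδ (G := Set.range g) (φ := φ)
        (fun z hz k => hφ z ⟨hz, fun t => k _ ⟨t, rfl⟩⟩) S col y B C X.h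
        (fun t ht => X.hc t (SR t ht))
        (by
          rintro e (⟨k, -⟩ | ⟨rfl, -⟩)
          exacts [X.colE ⟨e, k⟩, X.colo])
        (by
          rintro _ ⟨_ | k, rfl⟩
          · refine ⟨-up B o R ψ, fun e he => ?_⟩
            have : ∑ r ∈ S, (-up B o R ψ) r * B r e = ψ ⬝ᵥ pat B o R e := by
              rw [dot_up hψ, ← Finset.sum_neg_distrib]
              refine (Finset.sum_congr rfl fun _ _ => neg_mul _ _).trans
                (Finset.sum_subset (Finset.subset_univ _) fun t _ ht => ?_)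
              simp [not_not.1 fun k => ht (Finset.mem_filter.2 ⟨Finset.mem_univ t, k⟩)]
            rw [this]
            rcases he with ⟨k, k1, k2⟩ | ⟨rfl, k1, k2⟩
            · rw [k2]; exact (g0 ⟨e, k⟩).trans (if_pos k1)
            · simp [k1, k2, X.pat_o]
          · refine ⟨0, fun e he => ?_⟩
            rcases he with ⟨k', k1, -⟩ | ⟨rfl, k1, -⟩
            · simpa using g1 k ⟨e, k'⟩ k1
            · simp [k1])
      let θ' : W → F := fun t => if t ∈ S then -θ t else 0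
      have key : ∀ e ∈ C, dn B o R θ' ⬝ᵥ pat B o R e =
          φ ⬝ᵥ res (fun k => s.colK k = c) (y e) := fun e he => by
        rw [hθ e he, dot_pat (isN_dn θ'), ← Finset.sum_neg_distrib]
        refine (Finset.sum_congr rfl fun r _ => ?_).trans
          ((sumR (G := fun t => if t ∈ S then θ t * B t e else 0)
            fun t ht => if_neg fun k => ht (SR t k)).symm.trans (by simp))
        have := X.ho r r.2
        by_cases k : (r : W) ∈ S
        · simp only [dn, θ', k, Option.elim, if_true]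
          field_simp
        · simp [dn, θ', k]
      refine ⟨dn B o R θ', isN_dn θ', ?_, fun e he k => key e (Or.inl ⟨e.2, he, k⟩)⟩
      rintro (_ | r) hi k
      · have y0 : y o = 0 := by_contra fun k' => by simp [geo, k'] at hi
        simpa [X.pat_o, y0] using key o (Or.inr ⟨rfl, y0, k⟩)
      · simp [dn, θ', S, up_coe, k]
    have : φ = ∑ k : T, (φ ⬝ᵥ u k) • g (some k) + σ • g none := by
      refine sub_eq_zero.1 (dotProduct_eq_zero _ fun z => ?_)
      have k := dot_span (f := φ) (fun z hz => hφ z ⟨X.fr.sub hz, by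
        rintro (_ | k)
        · simp [g, sum_dotProduct, X.fr.kill _ z hz]
        · exact X.fr.kill _ z hz⟩) (X.fr.span z)
      rw [dotProduct_sub, dotProduct_sum, ← Finset.sum_add_sum_compl T] at k
      simp only [g, Option.elim, sub_dotProduct, add_dotProduct, sum_dotProduct, smul_dotProduct,
        dotProduct_smul, smul_eq_mul, Finset.mul_sum] at k ⊢
      rw [Finset.sum_coe_sort T fun k => φ ⬝ᵥ u k * f k ⬝ᵥ z, ← k]
      congr 2
      · exact Finset.sum_congr rfl fun _ _ => mul_comm _ _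
      · exact Finset.sum_congr rfl fun e he => by rw [← mul_assoc, ← hσ e he, mul_comm]
    rw [this]
    exact add_mem (sum_mem fun k _ => Submodule.smul_mem _ _ (Submodule.subset_span ⟨_, rfl⟩))
      (Submodule.smul_mem _ _ (Submodule.subset_span ⟨_, rfl⟩))
  · rintro (_ | k)
    · rw [← h2]
      simp only [g, Option.elim, sum_dotProduct, smul_dotProduct, smul_eq_mul]
      exact Finset.sum_congr rfl fun e _ => congrArg _ (row e).symm
    · exact (row k).symm.trans (h1 k k.2)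

lemma ax [DecidableEq J] (hA : (ANEM.mk s c D0).Ax) {X0 : Set ({k // ¬s.colK k = c} → F)}
    (hX : X0 ⊆ (ANEM.mk s c D0).𝒳) (hX0 : ∀ ξ ∈ X0, ξ ᵥ* w = 0)
    (hr : finrank F (KILL.perp X0) ≤ Fintype.card J) {w' : Matrix J {k // ¬s.colK k = c} F}
    (hw : w' * w = 1) : (geo p D0 y B o R E f w).Ax := by
  refine ⟨fun e => ?_, ?_, X.win hA hX hX0 hr fun x k => ?_, X.edge, X.lam hw⟩
  · obtain ⟨r, hr, h⟩ := X.adj e e.2
    exact ⟨some ⟨r, hr⟩, Finset.mem_univ _, none, Finset.mem_univ _, by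
      simp [geo, pat, h, X.ho r hr]⟩
  · rcases X.oE with h | h
    · exact Or.inl ⟨by simp [geo, h.1], by simp [geo, h.1]⟩
    · exact Or.inr ⟨⟨o, h⟩, X.fy ⟨o, h⟩, by simp [geo, X.yo h], X.pat_o⟩
  · rw [← one_mulVec x, ← hw, ← mulVec_mulVec, k, mulVec_zero]

end Ctx

end KW

end Pool.Agent.MP_d99b12_co.H30b
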